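import Mathlib
import Pool.Agent.V11306.FeDet
import Pool.Agent.V11306.Transfer

/-!
# Legendre-symbol determinants mixing `(j+k/p)` and `(j-k/p)`: Q2
-/

set_option autoImplicit false

namespace Pool.Agent.V11306.C8Q2

open Finset Matrix Pool.Agent.V11306.Conv

/-- The matrix with rows and columns indexed by `0, 1, …, (p-1)/2` and entries
`(j+k/p) - (j-k/p) + (j/p) y + (k/p) z`, over a commutative ring. -/
def matE (p : ℕ) [Fact p.Prime] {R : Type*} [CommRing R] (y z : R) :
    Matrix (Fin ((p - 1) / 2 + 1)) (Fin ((p - 1) / 2 + 1)) R :=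
  Matrix.of fun j k =>
    ((legendreSym p (((j : ℕ) : ℤ) + ((k : ℕ) : ℤ)) : ℤ) : R)
    - ((legendreSym p (((j : ℕ) : ℤ) - ((k : ℕ) : ℤ)) : ℤ) : R)
    + ((legendreSym p ((j : ℕ) : ℤ) : ℤ) : R) * y
    + ((legendreSym p ((k : ℕ) : ℤ) : ℤ) : R) * z

variable {p : ℕ} [Fact p.Prime]

lemma leg_cast (a : ℤ) : ((legendreSym p a : ℤ) : ℚ) = q (a : ZMod p) := rfl

/-- the bordered matrix -/
noncomputable def bord (p : ℕ) [Fact p.Prime] (n : ℕ) (y z : ℚ) :
    Matrix (Fin (n + 1)) (Fin (n + 1)) ℚ :=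
  Matrix.of fun j k => q (((j : ℕ) : ZMod p) + ((k : ℕ) : ZMod p)) -
    q (((j : ℕ) : ZMod p) - ((k : ℕ) : ZMod p)) +
    (if k = 0 then q ((j : ℕ) : ZMod p) * y else 0) + (if j = 0 then q ((k : ℕ) : ZMod p) * z else 0)

/-- the full matrix -/
noncomputable def full (p : ℕ) [Fact p.Prime] (n : ℕ) (y z : ℚ) :
    Matrix (Fin (n + 1)) (Fin (n + 1)) ℚ :=
  Matrix.of fun j k => q (((j : ℕ) : ZMod p) + ((k : ℕ) : ZMod p)) -
    q (((j : ℕ) : ZMod p) - ((k : ℕ) : ZMod p)) +
    q ((j : ℕ) : ZMod p) * y + q ((k : ℕ) : ZMod p) * z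

lemma det_full (h1 : p % 4 = 1) (n : ℕ) (y z : ℚ) : (full p n y z).det = (bord p n y z).det := by
  set mid : Matrix (Fin (n + 1)) (Fin (n + 1)) ℚ := Matrix.of fun j k =>
    q (((j : ℕ) : ZMod p) + ((k : ℕ) : ZMod p)) - q (((j : ℕ) : ZMod p) - ((k : ℕ) : ZMod p)) +
    (if k = 0 then q ((j : ℕ) : ZMod p) * y else 0) + q ((k : ℕ) : ZMod p) * z with hmid
  have e1 : mid.det = (bord p n y z).det := by
    apply Matrix.det_eq_of_forall_row_eq_smul_add_const (fun j => if j = 0 then 0 else 1) 0 (by simp)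
    intro i j
    simp only [hmid, bord, Matrix.of_apply, if_true]
    by_cases h2 : i = 0
    · subst h2; simp
    · by_cases h3 : j = 0
      · subst h3; simp [h2, q_zero]
      · simp [h2, h3, q_neg h1]
  have e2 : (full p n y z).det = mid.det := by
    rw [← Matrix.det_transpose, ← Matrix.det_transpose mid]
    apply Matrix.det_eq_of_forall_row_eq_smul_add_const (fun j => if j = 0 then 0 else 1) 0 (by simp)
    intro i j
    simp only [hmid, full, Matrix.of_apply, Matrix.transpose_apply, if_true]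
    split_ifs with h2
    · subst h2; simp
    · simp [q_zero]
      ring
  rw [e2, e1]

lemma det_bord (h1 : p % 4 = 1) (n h : ℕ) (hn : p = 2 * n + 1) (hh : n = 2 * (h + 1)) (y z : ℚ) :
    (bord p n y z).det = y * z * (-(p : ℚ)) ^ h * ∑ j, ∑ k, v p n j * Am p n j k * v p n k := by
  have hp := (Fact.out : p.Prime).two_le
  have hp0 : (p : ℚ) ≠ 0 := by
    have : p ≠ 0 := by omega
    exact_mod_cast this
  have hdet := det_Am (p := p) h1 n (h + 1) hn hh
  have hunit : IsUnit (Am p n).det := by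
    rw [hdet]; exact isUnit_iff_ne_zero.mpr (pow_ne_zero _ (neg_ne_zero.mpr hp0))
  have hinv : (Am p n)⁻¹ = (p : ℚ)⁻¹ • Am p n := by
    apply Matrix.inv_eq_right_inv
    rw [Matrix.mul_smul, Am_sq h1 n hn, smul_smul, inv_mul_cancel₀ hp0, one_smul]
  have := Matrix.invertibleOfIsUnitDet _ hunit
  set e : Fin (n + 1) ≃ Fin n ⊕ Unit := (finSuccEquiv n).trans (Equiv.optionEquivSumPUnit _) with he
  set B : Matrix (Fin n) Unit ℚ := Matrix.of fun j _ => v p n j * y with hB
  set C : Matrix Unit (Fin n) ℚ := Matrix.of fun _ k => v p n k * z with hC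
  have hsub : bord p n y z = (Matrix.fromBlocks (Am p n) B C 0).submatrix e e := by
    refine Matrix.ext fun j k => ?_
    refine Fin.cases ?_ (fun j => ?_) j <;> refine Fin.cases ?_ (fun k => ?_) k
    · simp [bord, he, q_zero]
    · have e4 : q (0 - (((k : ℕ) + 1 : ℕ) : ZMod p)) = q (((k : ℕ) + 1 : ℕ) : ZMod p) := by
        rw [zero_sub, q_neg h1]
      push_cast at e4
      simp [bord, he, hC, v]
      rw [← e4]
      ring_nf
    · simp [bord, he, hB, v]
    · simp [bord, he, Am]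
  rw [hsub, Matrix.det_submatrix_equiv_self, Matrix.det_fromBlocks₁₁, hdet,
    Matrix.invOf_eq_nonsing_inv, hinv]
  rw [Matrix.det_unique]
  simp only [Matrix.sub_apply, Matrix.zero_apply, Matrix.mul_smul, Matrix.smul_mul,
    Matrix.smul_apply, smul_eq_mul, zero_sub]
  have e3 : (C * Am p n * B) default default =
      y * z * ∑ j, ∑ k, v p n j * Am p n j k * v p n k := by
    rw [Matrix.mul_apply]
    simp only [Matrix.mul_apply, hB, hC, Matrix.of_apply]
    simp only [sum_mul]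
    rw [sum_comm, mul_sum]
    refine sum_congr rfl fun j _ => ?_
    rw [mul_sum]
    refine sum_congr rfl fun k _ => ?_
    ring
  rw [e3, pow_succ]
  field_simp

/-- the integer `T` -/
noncomputable def Tz (p : ℕ) [Fact p.Prime] (n : ℕ) : ℤ :=
  ∑ j : Fin n, ∑ k : Fin n, legendreSym p ((j : ℕ) + 1) *
    (legendreSym p (((j : ℕ) + 1) + ((k : ℕ) + 1)) - legendreSym p (((j : ℕ) + 1) - ((k : ℕ) + 1))) *
    legendreSym p ((k : ℕ) + 1)

lemma Tz_cast (n : ℕ) : (Tz p n : ℚ) = ∑ j, ∑ k, v p n j * Am p n j k * v p n k := by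
  simp only [Tz, Int.cast_sum, Int.cast_mul, Int.cast_sub, leg_cast, v, Am, Matrix.of_apply]
  push_cast
  rfl

lemma four_dvd_Tz (h1 : p % 4 = 1) (n : ℕ) (hn : p = 2 * n + 1) : (4 : ℤ) ∣ Tz p n := by
  have hp2 : p ≠ 2 := by rintro rfl; omega
  set f : Fin n → Fin n → ℤ := fun j k => legendreSym p ((j : ℕ) + 1) *
    (legendreSym p (((j : ℕ) + 1) + ((k : ℕ) + 1)) - legendreSym p (((j : ℕ) + 1) - ((k : ℕ) + 1))) *
    legendreSym p ((k : ℕ) + 1) with hf
  have hleg : ∀ a : ℤ, (a : ZMod p) ≠ 0 → legendreSym p a = 1 ∨ legendreSym p a = -1 :=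
    fun a ha => legendreSym.eq_one_or_neg_one p ha
  have hsymm : ∀ j k, f j k = f k j := by
    intro j k
    have hneg : legendreSym p (((j : ℕ) + 1) - ((k : ℕ) + 1)) =
        legendreSym p (((k : ℕ) + 1) - ((j : ℕ) + 1)) := by
      have := q_neg h1 ((((((j : ℕ) + 1) - ((k : ℕ) + 1) : ℤ)) : ZMod p))
      rw [← Int.cast_neg, ← leg_cast, ← leg_cast] at this
      have h2 : legendreSym p (-(((j : ℕ) + 1) - ((k : ℕ) + 1) : ℤ)) =
        legendreSym p (((j : ℕ) + 1) - ((k : ℕ) + 1)) := by exact_mod_cast this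
      rw [← h2]; congr 1; ring
    simp only [hf]
    rw [hneg, add_comm (((j : ℕ) : ℤ) + 1) (((k : ℕ) : ℤ) + 1)]
    ring
  have hdiag : ∑ j, f j j = 0 := by
    have e : ∀ j, f j j = legendreSym p 2 * legendreSym p ((j : ℕ) + 1) := by
      intro j
      simp only [hf]
      rw [sub_self, legendreSym.at_zero, sub_zero]
      have h2 : ((((j : ℕ) : ℤ) + 1) + (((j : ℕ) : ℤ) + 1)) = 2 * (((j : ℕ) : ℤ) + 1) := by ring
      rw [h2, legendreSym.mul]
      have h3 : legendreSym p (((j : ℕ) : ℤ) + 1) * legendreSym p (((j : ℕ) : ℤ) + 1) = 1 := by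
        rw [← sq]
        apply legendreSym.sq_one
        have := cast_ne hn j
        push_cast at this ⊢
        exact this
      calc legendreSym p (((j : ℕ) : ℤ) + 1) * (legendreSym p 2 * legendreSym p (((j : ℕ) : ℤ) + 1)) *
            legendreSym p (((j : ℕ) : ℤ) + 1)
          = legendreSym p 2 * (legendreSym p (((j : ℕ) : ℤ) + 1) *
            legendreSym p (((j : ℕ) : ℤ) + 1)) * legendreSym p (((j : ℕ) : ℤ) + 1) := by ring
        _ = _ := by rw [h3, mul_one]
    rw [sum_congr rfl (fun j _ => e j), ← mul_sum]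
    have h4 : ((∑ j : Fin n, legendreSym p ((j : ℕ) + 1) : ℤ) : ℚ) = 0 := by
      rw [← sum_v (p := p) h1 n hn]
      simp only [Int.cast_sum, leg_cast, v]
      push_cast
      rfl
    have h5 : (∑ j : Fin n, legendreSym p ((j : ℕ) + 1) : ℤ) = 0 := by exact_mod_cast h4
    rw [h5, mul_zero]
  have hoff : ∀ j k, j ≠ k → (2 : ℤ) ∣ f j k := by
    intro j k hjk
    simp only [hf]
    have ha : (((((j : ℕ) : ℤ) + 1) + (((k : ℕ) : ℤ) + 1) : ℤ) : ZMod p) ≠ 0 := by
      have := add_ne hn j k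
      push_cast at this ⊢
      exact this
    have hb : (((((j : ℕ) : ℤ) + 1) - (((k : ℕ) : ℤ) + 1) : ℤ) : ZMod p) ≠ 0 := by
      intro h
      apply hjk
      rw [← sub_eq_zero_iff hn j k, ← h]
      push_cast
      ring
    have h2 : (2 : ℤ) ∣ legendreSym p ((((j : ℕ) : ℤ) + 1) + (((k : ℕ) : ℤ) + 1)) -
        legendreSym p ((((j : ℕ) : ℤ) + 1) - (((k : ℕ) : ℤ) + 1)) := by
      rcases hleg _ ha with h3 | h3 <;> rcases hleg _ hb with h4 | h4 <;> rw [h3, h4] <;> norm_num
    exact Dvd.dvd.mul_right (Dvd.dvd.mul_left h2 _) _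
  have hT : Tz p n = ∑ j, ∑ k, f j k := rfl
  have hsplit : ∀ j k, f j k = (if j < k then f j k else 0) + (if j = k then f j k else 0) +
      (if k < j then f j k else 0) := by
    intro j k
    rcases lt_trichotomy j k with h | h | h
    · simp [h, h.ne, h.le]
    · simp [h]
    · simp [h, h.ne', h.le]
  have hsum : Tz p n = 2 * ∑ j, ∑ k, (if j < k then f j k else 0) := by
    rw [hT, sum_congr rfl (fun j _ => sum_congr rfl (fun k _ => hsplit j k))]
    simp only [sum_add_distrib]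
    have e1 : ∑ j : Fin n, ∑ k : Fin n, (if j = k then f j k else 0) = 0 := by
      refine Eq.trans ?_ hdiag
      refine sum_congr rfl fun j _ => ?_
      rw [Finset.sum_ite_eq Finset.univ j (fun k => f j k), if_pos (Finset.mem_univ _)]
    have e2 : ∑ j : Fin n, ∑ k : Fin n, (if k < j then f j k else 0) =
        ∑ j : Fin n, ∑ k : Fin n, (if j < k then f j k else 0) := by
      rw [sum_comm]
      refine sum_congr rfl fun j _ => sum_congr rfl fun k _ => ?_
      rw [hsymm k j]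
    rw [e1, e2]
    ring
  rw [hsum]
  have h6 : (2 : ℤ) ∣ ∑ j, ∑ k, (if j < k then f j k else 0) := by
    refine dvd_sum fun j _ => dvd_sum fun k _ => ?_
    split_ifs with h
    · exact hoff j k h.ne
    · exact dvd_zero _
  obtain ⟨t, ht⟩ := h6
  exact ⟨t, by rw [ht]; ring⟩

end Pool.Agent.V11306.C8Q2

open Pool.Agent.V11306.C8Q2 Pool.Agent.V11306.Conv MvPolynomial in
/-- `MP_c81705_nt`, Q2: for every prime `p ≡ 1 (mod 4)` there is an integer `x_p` with
`E_p = 4 p ^ ((p-5)/4) x_p y z`, for parameters in an arbitrary commutative ring. -/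
theorem Pool.Agent.Results.MP_c81705_nt.Q2.result (p : ℕ) [Fact p.Prime] (h1 : p % 4 = 1) :
    ∃ c : ℤ, ∀ (R : Type*) [CommRing R] (y z : R),
      (matE p y z).det = 4 * (p : R) ^ ((p - 5) / 4) * (c : R) * (y * z) := by
  have hp := (Fact.out : p.Prime).two_le
  have hp5 : 5 ≤ p := by omega
  obtain ⟨t, ht⟩ := four_dvd_Tz (p := p) h1 ((p - 1) / 2) (by omega)
  refine ⟨(-1) ^ ((p - 5) / 4) * t, ?_⟩
  have hint : ∀ y z : ℤ, (matE p y z).det =
      4 * (p : ℤ) ^ ((p - 5) / 4) * ((-1) ^ ((p - 5) / 4) * t) * (y * z) := by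
    intro y z
    have e : (matE p y z).map (Int.castRingHom ℚ) = full p ((p - 1) / 2) y z := by
      ext j k
      rw [Matrix.map_apply]
      simp only [matE, full, Matrix.of_apply, eq_intCast, Int.cast_add, Int.cast_mul, Int.cast_sub,
        Int.cast_id, Pool.Agent.V11306.C8Q2.leg_cast, Int.cast_natCast]
    have h2 : ((matE p y z).det : ℚ) = ((4 * (p : ℤ) ^ ((p - 5) / 4) *
        ((-1) ^ ((p - 5) / 4) * t) * (y * z) : ℤ) : ℚ) := by
      rw [← eq_intCast (Int.castRingHom ℚ) (matE p y z).det, RingHom.map_det,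
        RingHom.mapMatrix_apply, e, det_full h1,
        det_bord (p := p) h1 ((p - 1) / 2) ((p - 5) / 4) (by omega) (by omega), ← Tz_cast, ht,
        neg_pow]
      simp only [Int.cast_mul, Int.cast_pow, Int.cast_neg, Int.cast_one, Int.cast_natCast,
        Int.cast_ofNat]
      ring
    exact_mod_cast h2
  intro R _ y z
  have hT := Pool.Agent.V11306.Transfer.transfer_two (m := (p - 1) / 2 + 1)
    (fun j k => legendreSym p (((j : ℕ) : ℤ) + ((k : ℕ) : ℤ)) -
      legendreSym p (((j : ℕ) : ℤ) - ((k : ℕ) : ℤ)))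
    (fun j => legendreSym p ((j : ℕ) : ℤ)) (fun k => legendreSym p ((k : ℕ) : ℤ))
    (C 4 * (C (p : ℤ)) ^ ((p - 5) / 4) * (C ((-1) ^ ((p - 5) / 4)) * C t) * (X 0 * X 1))
    (by
      intro y z
      have e : (matE p y z) = Matrix.of fun j k : Fin ((p - 1) / 2 + 1) =>
          (legendreSym p (((j : ℕ) : ℤ) + ((k : ℕ) : ℤ)) -
            legendreSym p (((j : ℕ) : ℤ) - ((k : ℕ) : ℤ))) +
          legendreSym p ((j : ℕ) : ℤ) * y + legendreSym p ((k : ℕ) : ℤ) * z := by
        ext j k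
        simp only [matE, Matrix.of_apply, Int.cast_id]
      rw [← e, hint]
      simp)
    y z
  have e : (matE p y z) = Matrix.of fun j k : Fin ((p - 1) / 2 + 1) =>
      (((legendreSym p (((j : ℕ) : ℤ) + ((k : ℕ) : ℤ)) -
        legendreSym p (((j : ℕ) : ℤ) - ((k : ℕ) : ℤ)) : ℤ)) : R) +
      ((legendreSym p ((j : ℕ) : ℤ) : ℤ) : R) * y + ((legendreSym p ((k : ℕ) : ℤ) : ℤ) : R) * z := by
    ext j k
    simp only [matE, Matrix.of_apply]
    push_cast
    ring
  rw [e, hT, ← coe_eval₂Hom]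
  rw [RingHom.map_mul, RingHom.map_mul, RingHom.map_mul, RingHom.map_mul, RingHom.map_mul,
    RingHom.map_pow]
  rw [coe_eval₂Hom, eval₂_C, eval₂_C, eval₂_C, eval₂_C, eval₂_X, eval₂_X]
  simp only [eq_intCast, Int.cast_natCast, Int.cast_mul, Int.cast_pow, Int.cast_neg, Int.cast_one,
    Int.cast_ofNat]
  rfl
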